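import Pool.Agent.TH198.AT.Stmts

/-!
# The claim (Case I) for the de Almeida–Thouless line

`w(x) = E sech^3(x + √v y)`, `m = sinh w - cosh w'`, `ρ = cosh(lx) sech^2 x`.  Stein's lemma for
`ρ m` gives `E[cosh(lx) sech x (w - w'')] = E[((x/s) ρ - ρ') m] ≥ 0`.
-/

set_option autoImplicit false

open MeasureTheory ProbabilityTheory Set Filter

namespace Pool.Agent.TH75.ATC

open Pool.TH198.AT

/-! ### growth -/

/-- at most exponential growth -/
def Gr (g : ℝ → ℝ) : Prop := ∃ C K : ℝ, 0 ≤ C ∧ 0 ≤ K ∧ ∀ x, |g x| ≤ C * Real.exp (K * |x|)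

lemma Gr.add {f g : ℝ → ℝ} (hf : Gr f) (hg : Gr g) : Gr (fun x => f x + g x) := by
  obtain ⟨C, K, hC, hK, h1⟩ := hf
  obtain ⟨C', K', hC', hK', h2⟩ := hg
  refine ⟨C + C', K + K', by positivity, by positivity, fun x => ?_⟩
  have e1 : Real.exp (K * |x|) ≤ Real.exp ((K + K') * |x|) := by
    apply Real.exp_le_exp.2
    nlinarith [mul_nonneg hK' (abs_nonneg x)]
  have e2 : Real.exp (K' * |x|) ≤ Real.exp ((K + K') * |x|) := by
    apply Real.exp_le_exp.2
    nlinarith [mul_nonneg hK (abs_nonneg x)]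
  calc |f x + g x| ≤ |f x| + |g x| := abs_add_le _ _
    _ ≤ C * Real.exp (K * |x|) + C' * Real.exp (K' * |x|) := add_le_add (h1 x) (h2 x)
    _ ≤ C * Real.exp ((K + K') * |x|) + C' * Real.exp ((K + K') * |x|) := by gcongr
    _ = _ := by ring

lemma Gr.mul {f g : ℝ → ℝ} (hf : Gr f) (hg : Gr g) : Gr (fun x => f x * g x) := by
  obtain ⟨C, K, hC, hK, h1⟩ := hf
  obtain ⟨C', K', hC', hK', h2⟩ := hg
  refine ⟨C * C', K + K', by positivity, by positivity, fun x => ?_⟩
  rw [abs_mul]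
  calc |f x| * |g x| ≤ (C * Real.exp (K * |x|)) * (C' * Real.exp (K' * |x|)) :=
        mul_le_mul (h1 x) (h2 x) (abs_nonneg _) (by positivity)
    _ = _ := by
        rw [add_mul, Real.exp_add]
        ring

lemma Gr.neg {f : ℝ → ℝ} (hf : Gr f) : Gr (fun x => -f x) := by
  obtain ⟨C, K, hC, hK, h1⟩ := hf
  exact ⟨C, K, hC, hK, fun x => by rw [abs_neg]; exact h1 x⟩

lemma Gr.sub {f g : ℝ → ℝ} (hf : Gr f) (hg : Gr g) : Gr (fun x => f x - g x) := by
  have := hf.add hg.neg
  simpa [sub_eq_add_neg] using this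

lemma gr_bdd {f : ℝ → ℝ} {C : ℝ} (h : ∀ x, |f x| ≤ C) : Gr f :=
  ⟨C, 0, (abs_nonneg _).trans (h 0), le_rfl, fun x => by simpa using h x⟩

lemma gr_const (c : ℝ) : Gr (fun _ => c) := gr_bdd (C := |c|) fun _ => le_rfl

lemma gr_id : Gr (fun x => x) :=
  ⟨1, 1, zero_le_one, zero_le_one, fun x => by
    rw [one_mul, one_mul]
    linarith [Real.add_one_le_exp |x|]⟩

lemma abs_sinh_le (x : ℝ) : |Real.sinh x| ≤ Real.cosh x := by
  rw [abs_le]
  have h1 := Real.cosh_add_sinh x
  have h2 := Real.cosh_sub_sinh x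
  have h3 := Real.exp_pos x
  have h4 := Real.exp_pos (-x)
  constructor <;> linarith

lemma cosh_le (x : ℝ) : Real.cosh x ≤ Real.exp |x| := by
  rw [Real.cosh_eq]
  have h1 : Real.exp x ≤ Real.exp |x| := Real.exp_le_exp.2 (le_abs_self x)
  have h2 : Real.exp (-x) ≤ Real.exp |x| := Real.exp_le_exp.2 (neg_le_abs x)
  linarith

lemma gr_cosh (l : ℝ) : Gr (fun x => Real.cosh (l * x)) :=
  ⟨1, |l|, zero_le_one, abs_nonneg _, fun x => by
    rw [one_mul, abs_of_pos (Real.cosh_pos _), ← abs_mul]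
    exact cosh_le _⟩

lemma gr_sinh : Gr Real.sinh :=
  ⟨1, 1, zero_le_one, zero_le_one, fun x => by
    rw [one_mul, one_mul]
    exact (abs_sinh_le x).trans (cosh_le x)⟩

lemma gr_cosh1 : Gr Real.cosh := by
  have := gr_cosh 1
  simpa using this

lemma Gr.comp_mul {f : ℝ → ℝ} (hf : Gr f) (r : ℝ) : Gr (fun z => f (r * z)) := by
  obtain ⟨C, K, hC, hK, h1⟩ := hf
  refine ⟨C, K * |r|, hC, by positivity, fun x => ?_⟩
  have := h1 (r * x)
  rwa [abs_mul, ← mul_assoc] at this

lemma Gr.int {f : ℝ → ℝ} (hf : Gr f) (hc : Continuous f) : Integrable f (gaussianReal 0 1) := by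
  obtain ⟨C, K, hC, hK, h1⟩ := hf
  have h2 : Integrable (fun x => C * (Real.exp (K * x) + Real.exp (-K * x)))
      (gaussianReal 0 1) :=
    ((integrable_exp_mul_gaussianReal K).add (integrable_exp_mul_gaussianReal (-K))).const_mul _
  refine h2.mono' hc.aestronglyMeasurable (Eventually.of_forall fun x => ?_)
  rw [Real.norm_eq_abs]
  refine (h1 x).trans (mul_le_mul_of_nonneg_left ?_ hC)
  rcases abs_cases x with ⟨h, _⟩ | ⟨h, _⟩
  · rw [h]
    linarith [Real.exp_pos (-K * x)]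
  · rw [h]
    have : K * -x = -K * x := by ring
    rw [this]
    linarith [Real.exp_pos (K * x)]

/-! ### the expectation -/

lemma E1_neg (F : ℝ → ℝ) : E1 (fun y => F (-y)) = E1 F := by
  unfold E1
  have h1 : (gaussianReal 0 1).map (fun x : ℝ => -x) = gaussianReal 0 1 := by
    rw [gaussianReal_map_neg, neg_zero]
  conv_rhs => rw [← h1]
  exact ((MeasurableEquiv.neg ℝ).measurableEmbedding.integral_map F).symm

lemma E1_abs_le {F : ℝ → ℝ} {C : ℝ} (h : ∀ y, |F y| ≤ C) : |E1 F| ≤ C := by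
  unfold E1
  have h1 := norm_integral_le_of_norm_le_const (μ := gaussianReal 0 1)
    (Eventually.of_forall fun y => (Real.norm_eq_abs (F y)).trans_le (h y))
  simpa using h1

/-! ### the functions -/

lemma sech_pos (x : ℝ) : 0 < sech x := inv_pos.2 (Real.cosh_pos x)

lemma sech_le (x : ℝ) : sech x ≤ 1 := inv_le_one_of_one_le₀ (Real.one_le_cosh x)

lemma abs_sech_pow_le (x : ℝ) (n : ℕ) : |sech x ^ n| ≤ 1 := by
  rw [abs_of_pos (pow_pos (sech_pos x) n)]
  exact pow_le_one₀ (sech_pos x).le (sech_le x)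

lemma abs_tanh_le (x : ℝ) : |Real.tanh x| ≤ 1 := (Real.abs_tanh_lt_one x).le

lemma sech_neg (x : ℝ) : sech (-x) = sech x := by
  unfold sech
  rw [Real.cosh_neg]

lemma tanh_sq' (x : ℝ) : Real.tanh x ^ 2 = 1 - sech x ^ 2 := by
  unfold sech
  have h := (Real.cosh_pos x).ne'
  rw [Real.tanh_eq_sinh_div_cosh]
  field_simp
  have := Real.cosh_sq x
  linarith

lemma hasDerivAt_sech (x : ℝ) : HasDerivAt sech (-(sech x * Real.tanh x)) x := by
  have h := (Real.hasDerivAt_cosh x).inv (Real.cosh_pos x).ne'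
  have h2 : -(sech x * Real.tanh x) = -Real.sinh x / Real.cosh x ^ 2 := by
    unfold sech
    rw [Real.tanh_eq_sinh_div_cosh]
    have := (Real.cosh_pos x).ne'
    field_simp
  rw [h2]
  exact h

lemma hasDerivAt_tanh (x : ℝ) : HasDerivAt Real.tanh (sech x ^ 2) x := by
  have h := (Real.hasDerivAt_sinh x).div (Real.hasDerivAt_cosh x) (Real.cosh_pos x).ne'
  have h2 : sech x ^ 2 =
      (Real.cosh x * Real.cosh x - Real.sinh x * Real.sinh x) / Real.cosh x ^ 2 := by
    unfold sech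
    have := (Real.cosh_pos x).ne'
    field_simp
    have := Real.cosh_sq x
    linarith
  have h3 : Real.tanh = Real.sinh / Real.cosh := by
    funext y
    exact Real.tanh_eq_sinh_div_cosh y
  rw [h2, h3]
  exact h

lemma continuous_sech : Continuous sech :=
  continuous_iff_continuousAt.2 fun x => (hasDerivAt_sech x).continuousAt

lemma continuous_tanh' : Continuous Real.tanh :=
  continuous_iff_continuousAt.2 fun x => (hasDerivAt_tanh x).continuousAt

/-- `sech^3` -/
noncomputable def f0' (x : ℝ) : ℝ := sech x ^ 3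

/-- its derivatives -/
noncomputable def f1' (x : ℝ) : ℝ := -(3 * sech x ^ 3 * Real.tanh x)

/-- its derivatives -/
noncomputable def f2' (x : ℝ) : ℝ := 9 * sech x ^ 3 - 12 * sech x ^ 5

/-- its derivatives -/
noncomputable def f3' (x : ℝ) : ℝ :=
  -(27 * sech x ^ 3 * Real.tanh x) + 60 * sech x ^ 5 * Real.tanh x

lemma d0 (x : ℝ) : HasDerivAt f0' (f1' x) x := by
  have h := (hasDerivAt_sech x).pow 3
  have h2 : f1' x = ((3 : ℕ) : ℝ) * sech x ^ (3 - 1) * -(sech x * Real.tanh x) := by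
    unfold f1'
    push_cast
    ring
  rw [h2]
  exact h

lemma d1 (x : ℝ) : HasDerivAt f1' (f2' x) x := by
  have h := ((((hasDerivAt_sech x).pow 3).const_mul 3).mul (hasDerivAt_tanh x)).neg
  refine h.congr_deriv ?_
  unfold f2'
  have h1 := tanh_sq' x
  have h2 : -(3 * (((3 : ℕ) : ℝ) * sech x ^ (3 - 1) * -(sech x * Real.tanh x)) * Real.tanh x +
      3 * sech x ^ 3 * sech x ^ 2) = 9 * sech x ^ 3 * Real.tanh x ^ 2 - 3 * sech x ^ 5 := by
    push_cast
    ring
  calc _ = 9 * sech x ^ 3 * Real.tanh x ^ 2 - 3 * sech x ^ 5 := h2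
    _ = _ := by rw [h1]; ring

lemma d2 (x : ℝ) : HasDerivAt f2' (f3' x) x := by
  have h := (((hasDerivAt_sech x).pow 3).const_mul 9).sub
    (((hasDerivAt_sech x).pow 5).const_mul 12)
  refine h.congr_deriv ?_
  unfold f3'
  push_cast
  ring

lemma c0 : Continuous f0' := continuous_sech.pow 3

lemma c1 : Continuous f1' := ((continuous_const.mul (continuous_sech.pow 3)).mul
  continuous_tanh').neg

lemma c2 : Continuous f2' :=
  (continuous_const.mul (continuous_sech.pow 3)).sub (continuous_const.mul (continuous_sech.pow 5))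

lemma c3 : Continuous f3' :=
  (((continuous_const.mul (continuous_sech.pow 3)).mul continuous_tanh').neg).add
    ((continuous_const.mul (continuous_sech.pow 5)).mul continuous_tanh')

lemma b0 (x : ℝ) : |f0' x| ≤ 1 := abs_sech_pow_le x 3

lemma st (x : ℝ) (n : ℕ) : |sech x ^ n * Real.tanh x| ≤ 1 := by
  rw [abs_mul]
  exact mul_le_one₀ (abs_sech_pow_le x n) (abs_nonneg _) (abs_tanh_le x)

lemma b1 (x : ℝ) : |f1' x| ≤ 3 := by
  unfold f1'
  rw [abs_neg, mul_assoc, abs_mul, abs_of_pos (by norm_num : (0 : ℝ) < 3)]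
  linarith [st x 3]

lemma b2 (x : ℝ) : |f2' x| ≤ 21 := by
  unfold f2'
  have h1 := abs_le.1 (abs_sech_pow_le x 3)
  have h2 := abs_le.1 (abs_sech_pow_le x 5)
  rw [abs_le]
  constructor <;> linarith [h1.1, h1.2, h2.1, h2.2]

lemma b3 (x : ℝ) : |f3' x| ≤ 87 := by
  unfold f3'
  have h1 := abs_le.1 (st x 3)
  have h2 := abs_le.1 (st x 5)
  rw [abs_le]
  constructor <;> nlinarith [h1.1, h1.2, h2.1, h2.2]

lemma kk_eq (x : ℝ) : kk x = (f0' x - f2' x) / 2 := by
  unfold kk f0' f2'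
  ring

lemma f0_neg (x : ℝ) : f0' (-x) = f0' x := by
  unfold f0'
  rw [sech_neg]

lemma f1_neg (x : ℝ) : f1' (-x) = -f1' x := by
  unfold f1'
  rw [sech_neg, Real.tanh_neg]
  ring

lemma f2_neg (x : ℝ) : f2' (-x) = f2' x := by
  unfold f2'
  rw [sech_neg]

/-- the convolution -/
noncomputable def W (f : ℝ → ℝ) (σ x : ℝ) : ℝ := E1 (fun y => f (x + σ * y))

lemma W_abs {f : ℝ → ℝ} {C : ℝ} (h : ∀ x, |f x| ≤ C) (σ x : ℝ) : |W f σ x| ≤ C :=
  E1_abs_le fun _ => h _

lemma W_neg {f : ℝ → ℝ} (h : ∀ x, f (-x) = f x) (σ x : ℝ) : W f σ (-x) = W f σ x := by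
  unfold W
  rw [← E1_neg (fun y => f (x + σ * y))]
  congr 1
  funext y
  rw [← h (-x + σ * y)]
  congr 1
  ring

lemma W_neg' {f : ℝ → ℝ} (h : ∀ x, f (-x) = -f x) (σ x : ℝ) : W f σ (-x) = -W f σ x := by
  unfold W
  rw [← E1_neg (fun y => f (x + σ * y))]
  unfold E1
  rw [← integral_neg]
  congr 1
  funext y
  have e : -x + σ * y = -(x + σ * -y) := by ring
  change f (-x + σ * y) = -f (x + σ * -y)
  rw [← h (x + σ * -y), e]

lemma bint {f : ℝ → ℝ} {C : ℝ} (h : ∀ x, |f x| ≤ C) (hc : Continuous f) (σ x : ℝ) :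
    Integrable (fun y => f (x + σ * y)) (gaussianReal 0 1) :=
  (gr_bdd (f := fun y => f (x + σ * y)) (C := C) fun _ => h _).int (hc.comp (by fun_prop))

lemma W_kk (σ x : ℝ) : E1 (fun y => kk (x + σ * y)) = (W f0' σ x - W f2' σ x) / 2 := by
  unfold W E1
  rw [← integral_sub (bint b0 c0 σ x) (bint b2 c2 σ x), ← integral_div]
  congr 1
  funext y
  exact kk_eq _

theorem t_CLAIM (hSTEIN : St_STEIN) (hCM : St_CM) (hW : St_W) (hTANH : St_TANH)
    (hHEATX : St_HEATX) : St_CLAIM := by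
  intro s h v hs hh hhs hv
  obtain ⟨σ, hσ⟩ : ∃ σ, σ = √v := ⟨_, rfl⟩
  obtain ⟨r, hr⟩ : ∃ r, r = √s := ⟨_, rfl⟩
  have hr0 : 0 < r := by rw [hr]; exact Real.sqrt_pos.2 hs
  have hrs : r ^ 2 = s := by rw [hr]; exact Real.sq_sqrt hs.le
  obtain ⟨l, hl⟩ : ∃ l, l = h / s := ⟨_, rfl⟩
  have hl0 : 0 ≤ l := by rw [hl]; positivity
  have hl2 : l ^ 2 ≤ 2 + 1 / s := by
    rw [hl, div_pow, div_le_iff₀ (by positivity)]
    have : (2 + 1 / s) * s ^ 2 = 2 * s ^ 2 + s := by field_simp
    rw [this]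
    exact hhs
  -- derivatives of `w`
  have D0 : ∀ x, HasDerivAt (W f0' σ) (W f1' σ x) x := fun x => hHEATX f0' f1' 3 d0 c1 b1 σ x
  have D1 : ∀ x, HasDerivAt (W f1' σ) (W f2' σ x) x := fun x => hHEATX f1' f2' 21 d1 c2 b2 σ x
  have D2 : ∀ x, HasDerivAt (W f2' σ) (W f3' σ x) x := fun x => hHEATX f2' f3' 87 d2 c3 b3 σ x
  have C0 : Continuous (W f0' σ) := continuous_iff_continuousAt.2 fun x => (D0 x).continuousAt
  have C1 : Continuous (W f1' σ) := continuous_iff_continuousAt.2 fun x => (D1 x).continuousAt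
  have C2 : Continuous (W f2' σ) := continuous_iff_continuousAt.2 fun x => (D2 x).continuousAt
  -- the functions
  obtain ⟨G, hG⟩ : ∃ G : ℝ → ℝ, G = fun x => sech x * ((W f0' σ x - W f2' σ x) / 2) := ⟨_, rfl⟩
  obtain ⟨m, hm⟩ : ∃ m : ℝ → ℝ, m = fun x => Real.sinh x * W f0' σ x - Real.cosh x * W f1' σ x :=
    ⟨_, rfl⟩
  obtain ⟨ρ, hρ⟩ : ∃ ρ : ℝ → ℝ, ρ = fun x => Real.cosh (l * x) * sech x ^ 2 := ⟨_, rfl⟩
  obtain ⟨ρ1, hρ1⟩ : ∃ ρ1 : ℝ → ℝ, ρ1 = fun x => Real.cosh (l * x) * sech x ^ 2 *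
    (l * Real.tanh (l * x) - 2 * Real.tanh x) := ⟨_, rfl⟩
  have hGc : Continuous G := by
    rw [hG]
    exact continuous_sech.mul ((C0.sub C2).div_const 2)
  have hmc : Continuous m := by
    rw [hm]
    exact (Real.continuous_sinh.mul C0).sub (Real.continuous_cosh.mul C1)
  have hρc : Continuous ρ := by
    rw [hρ]
    exact (Real.continuous_cosh.comp (by fun_prop)).mul (continuous_sech.pow 2)
  have hρ1c : Continuous ρ1 := by
    rw [hρ1]
    exact ((Real.continuous_cosh.comp (by fun_prop)).mul (continuous_sech.pow 2)).mul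
      ((continuous_const.mul (continuous_tanh'.comp (by fun_prop))).sub
        (continuous_const.mul continuous_tanh'))
  have hGb : ∀ x, |G x| ≤ 11 := by
    intro x
    rw [hG]
    have h1 := abs_le.1 (W_abs b0 σ x)
    have h2 := abs_le.1 (W_abs b2 σ x)
    have h3 : |(W f0' σ x - W f2' σ x) / 2| ≤ 11 := by
      rw [abs_le]
      constructor <;> linarith [h1.1, h1.2, h2.1, h2.2]
    change |sech x * ((W f0' σ x - W f2' σ x) / 2)| ≤ 11
    rw [abs_mul, abs_of_pos (sech_pos x)]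
    calc sech x * |(W f0' σ x - W f2' σ x) / 2| ≤ 1 * 11 :=
          mul_le_mul (sech_le x) h3 (abs_nonneg _) zero_le_one
      _ = 11 := one_mul _
  have hGe : ∀ x, G (-x) = G x := by
    intro x
    rw [hG]
    change sech (-x) * ((W f0' σ (-x) - W f2' σ (-x)) / 2) = _
    rw [sech_neg, W_neg f0_neg, W_neg f2_neg]
  have hgoal : E1 (fun z => sech (h + √s * z) * E1 (fun y => kk (h + √s * z + √v * y))) =
      E1 (fun z => G (h + √s * z)) := by
    congr 1
    funext z
    rw [hG, ← hσ, W_kk]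
  rw [hgoal, hCM G 11 hGc hGe hGb s h hs]
  refine mul_nonneg (Real.exp_pos _).le ?_
  rw [← hl, ← hr]
  -- Stein
  have hGρ : Gr ρ := by
    rw [hρ]
    exact (gr_cosh l).mul (gr_bdd fun x => abs_sech_pow_le x 2)
  have hGρ1 : Gr ρ1 := by
    rw [hρ1]
    refine ((gr_cosh l).mul (gr_bdd fun x => abs_sech_pow_le x 2)).mul (Gr.sub ?_ ?_)
    · exact (gr_const l).mul (gr_bdd fun x => abs_tanh_le (l * x))
    · exact (gr_const 2).mul (gr_bdd abs_tanh_le)
  have hGm : Gr m := by
    rw [hm]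
    exact (gr_sinh.mul (gr_bdd (W_abs b0 σ))).sub (gr_cosh1.mul (gr_bdd (W_abs b1 σ)))
  have hGG : Gr (fun x => Real.cosh (l * x) * G x) := (gr_cosh l).mul (gr_bdd hGb)
  obtain ⟨D, hD⟩ : ∃ D : ℝ → ℝ, D = fun z => ρ (r * z) * m (r * z) := ⟨_, rfl⟩
  obtain ⟨DD, hDD⟩ : ∃ DD : ℝ → ℝ, DD = fun z => r * (ρ1 (r * z) * m (r * z)) +
    2 * r * (Real.cosh (l * (r * z)) * G (r * z)) := ⟨_, rfl⟩
  have dm : ∀ x, HasDerivAt m (Real.cosh x * (W f0' σ x - W f2' σ x)) x := by
    intro x
    have h1 := ((Real.hasDerivAt_sinh x).mul (D0 x)).sub ((Real.hasDerivAt_cosh x).mul (D1 x))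
    rw [hm]
    refine h1.congr_deriv ?_
    ring
  have dρ : ∀ x, HasDerivAt ρ (ρ1 x) x := by
    intro x
    have h0 : HasDerivAt (fun x => Real.cosh (l * x)) (Real.sinh (l * x) * (l * 1)) x :=
      ((hasDerivAt_id x).const_mul l).cosh
    have h1 := h0.mul ((hasDerivAt_sech x).pow 2)
    rw [hρ, hρ1]
    refine h1.congr_deriv ?_
    have h2 : Real.sinh (l * x) = Real.cosh (l * x) * Real.tanh (l * x) := by
      rw [Real.tanh_eq_sinh_div_cosh]
      have := (Real.cosh_pos (l * x)).ne'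
      field_simp
    rw [h2, Pi.pow_apply]
    push_cast
    ring
  have dD : ∀ z, HasDerivAt D (DD z) z := by
    intro z
    have hx : HasDerivAt (fun z : ℝ => r * z) (r * 1) z := (hasDerivAt_id z).const_mul r
    have h1 := ((dρ (r * z)).comp z hx).mul ((dm (r * z)).comp z hx)
    rw [hD, hDD]
    refine h1.congr_deriv ?_
    have h2 : sech (r * z) * Real.cosh (r * z) = 1 := by
      unfold sech
      exact inv_mul_cancel₀ (Real.cosh_pos _).ne'
    change ρ1 (r * z) * (r * 1) * m (r * z) + ρ (r * z) *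
      (Real.cosh (r * z) * (W f0' σ (r * z) - W f2' σ (r * z)) * (r * 1)) = _
    rw [hG, hρ]
    change _ = r * (ρ1 (r * z) * m (r * z)) + 2 * r * (Real.cosh (l * (r * z)) *
      (sech (r * z) * ((W f0' σ (r * z) - W f2' σ (r * z)) / 2)))
    calc _ = r * (ρ1 (r * z) * m (r * z)) + r * (Real.cosh (l * (r * z)) * sech (r * z) *
          (W f0' σ (r * z) - W f2' σ (r * z))) * (sech (r * z) * Real.cosh (r * z)) := by
          change ρ1 (r * z) * (r * 1) * m (r * z) + Real.cosh (l * (r * z)) * sech (r * z) ^ 2 *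
            (Real.cosh (r * z) * (W f0' σ (r * z) - W f2' σ (r * z)) * (r * 1)) = _
          ring
      _ = _ := by
          rw [h2]
          ring
  have cA : Continuous (fun z => ρ1 (r * z) * m (r * z)) :=
    (hρ1c.comp (by fun_prop)).mul (hmc.comp (by fun_prop))
  have cB : Continuous (fun z => Real.cosh (l * (r * z)) * G (r * z)) :=
    (Real.continuous_cosh.comp (by fun_prop)).mul (hGc.comp (by fun_prop))
  have gA : Gr (fun z => ρ1 (r * z) * m (r * z)) := (hGρ1.mul hGm).comp_mul r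
  have gB : Gr (fun z => Real.cosh (l * (r * z)) * G (r * z)) := hGG.comp_mul r
  have gD : Gr D := by
    rw [hD]
    exact (hGρ.mul hGm).comp_mul r
  have cD : Continuous D := by
    rw [hD]
    exact (hρc.comp (by fun_prop)).mul (hmc.comp (by fun_prop))
  have gDD : Gr DD := by
    rw [hDD]
    exact ((gr_const r).mul gA).add ((gr_const (2 * r)).mul gB)
  have cDD : Continuous DD := by
    rw [hDD]
    exact (continuous_const.mul cA).add (continuous_const.mul cB)
  have hst : E1 (fun z => z * D z) = E1 DD := by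
    obtain ⟨C, K, hC, hK, h1⟩ := gD
    obtain ⟨C', K', hC', hK', h2⟩ := gDD
    refine hSTEIN D DD (C + C') (K + K') dD cDD (fun x => ?_) (fun x => ?_)
    · refine (h1 x).trans ?_
      have e1 : Real.exp (K * |x|) ≤ Real.exp ((K + K') * |x|) := by
        apply Real.exp_le_exp.2
        nlinarith [mul_nonneg hK' (abs_nonneg x)]
      exact mul_le_mul (by linarith) e1 (Real.exp_pos _).le (by positivity)
    · refine (h2 x).trans ?_
      have e2 : Real.exp (K' * |x|) ≤ Real.exp ((K + K') * |x|) := by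
        apply Real.exp_le_exp.2
        nlinarith [mul_nonneg hK (abs_nonneg x)]
      exact mul_le_mul (by linarith) e2 (Real.exp_pos _).le (by positivity)
  have hmain : 2 * r * E1 (fun z => Real.cosh (l * (r * z)) * G (r * z)) =
      E1 (fun z => z * D z - r * (ρ1 (r * z) * m (r * z))) := by
    have e1 : E1 (fun z => z * D z - r * (ρ1 (r * z) * m (r * z))) =
        E1 (fun z => z * D z) - r * E1 (fun z => ρ1 (r * z) * m (r * z)) := by
      unfold E1
      rw [integral_sub ((gr_id.mul gD).int (continuous_id.mul cD)) ((gA.int cA).const_mul r),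
        integral_const_mul]
    have e2 : E1 DD = r * E1 (fun z => ρ1 (r * z) * m (r * z)) +
        2 * r * E1 (fun z => Real.cosh (l * (r * z)) * G (r * z)) := by
      unfold E1
      rw [hDD, integral_add ((gA.int cA).const_mul r) ((gB.int cB).const_mul (2 * r)),
        integral_const_mul, integral_const_mul]
    rw [e1, hst, e2]
    ring
  -- the sign
  have hsgn0 : ∀ x, 0 ≤ x → 0 ≤ (x / s * ρ x - ρ1 x) * m x := by
    intro x hx
    refine mul_nonneg ?_ ?_
    · have h1 := hTANH s l x hs hl0 hl2 hx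
      have h2 : x / s * ρ x - ρ1 x = Real.cosh (l * x) * sech x ^ 2 *
          (2 * Real.tanh x + x / s - l * Real.tanh (l * x)) := by
        rw [hρ, hρ1]
        change x / s * (Real.cosh (l * x) * sech x ^ 2) - Real.cosh (l * x) * sech x ^ 2 *
          (l * Real.tanh (l * x) - 2 * Real.tanh x) = _
        ring
      rw [h2]
      refine mul_nonneg (mul_nonneg (Real.cosh_pos _).le (pow_pos (sech_pos x) 2).le) ?_
      linarith
    · rw [hm]
      change 0 ≤ Real.sinh x * W f0' σ x - Real.cosh x * W f1' σ x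
      have h1 : 0 ≤ W f0' σ x := by
        unfold W E1
        exact integral_nonneg fun y => (pow_pos (sech_pos _) 3).le
      have h2 : W f1' σ x ≤ 0 := by
        have := hW v x hv.le hx
        rw [← hσ] at this
        exact this
      have h3 : 0 ≤ Real.sinh x := Real.sinh_nonneg_iff.2 hx
      have h4 := Real.cosh_pos x
      nlinarith [mul_nonneg h3 h1, mul_nonneg h4.le (neg_nonneg.2 h2)]
  have hsgn : ∀ x, 0 ≤ (x / s * ρ x - ρ1 x) * m x := by
    intro x
    rcases le_total 0 x with hx | hx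
    · exact hsgn0 x hx
    · have h1 := hsgn0 (-x) (by linarith)
      have h2 : ρ (-x) = ρ x := by
        rw [hρ]
        change Real.cosh (l * -x) * sech (-x) ^ 2 = Real.cosh (l * x) * sech x ^ 2
        rw [sech_neg, mul_neg, Real.cosh_neg]
      have h3 : ρ1 (-x) = -ρ1 x := by
        rw [hρ1]
        change Real.cosh (l * -x) * sech (-x) ^ 2 *
          (l * Real.tanh (l * -x) - 2 * Real.tanh (-x)) = -(Real.cosh (l * x) * sech x ^ 2 *
            (l * Real.tanh (l * x) - 2 * Real.tanh x))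
        rw [sech_neg, mul_neg, Real.cosh_neg, Real.tanh_neg, Real.tanh_neg]
        ring
      have h4 : m (-x) = -m x := by
        rw [hm]
        change Real.sinh (-x) * W f0' σ (-x) - Real.cosh (-x) * W f1' σ (-x) =
          -(Real.sinh x * W f0' σ x - Real.cosh x * W f1' σ x)
        rw [W_neg f0_neg, W_neg' f1_neg, Real.sinh_neg, Real.cosh_neg]
        ring
      rw [h2, h3, h4] at h1
      have h5 : (-x / s * ρ x - -ρ1 x) * -m x = (x / s * ρ x - ρ1 x) * m x := by ring
      rwa [h5] at h1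
  have hfin : 0 ≤ E1 (fun z => z * D z - r * (ρ1 (r * z) * m (r * z))) := by
    unfold E1
    refine integral_nonneg fun z => ?_
    have h1 := hsgn (r * z)
    have h2 : z * D z - r * (ρ1 (r * z) * m (r * z)) =
        r * (((r * z) / s * ρ (r * z) - ρ1 (r * z)) * m (r * z)) := by
      rw [hD]
      change z * (ρ (r * z) * m (r * z)) - r * (ρ1 (r * z) * m (r * z)) = _
      have h3 : r * ((r * z) / s) = z := by
        rw [← hrs]
        field_simp
      calc _ = r * ((r * z) / s) * (ρ (r * z) * m (r * z)) - r * (ρ1 (r * z) * m (r * z)) := by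
            rw [h3]
        _ = _ := by ring
    change 0 ≤ z * D z - r * (ρ1 (r * z) * m (r * z))
    rw [h2]
    exact mul_nonneg hr0.le h1
  rw [← hmain] at hfin
  exact nonneg_of_mul_nonneg_right hfin (by positivity)

end Pool.Agent.TH75.ATC
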